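import Mathlib

/-!
# Cayley graphs of free abelian groups and countable unions of triangle-free graphs
-/

set_option autoImplicit false

namespace Pool.Agent.H73EH

open Cardinal

universe u

variable {V : Type u}

/-- a symmetric colouring of the edges with countably many colours, no triangle in one colour -/
def TriColorable (G : SimpleGraph V) : Prop :=
  ∃ c : V → V → ℕ, (∀ x y, c x y = c y x) ∧
    ∀ x y z, G.Adj x y → G.Adj y z → G.Adj x z → ¬(c x y = c y z ∧ c x y = c x z)

/-- the basis vectors of the free abelian group on `V` -/
noncomputable def e (v : V) : V →₀ ℤ := Finsupp.single v 1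

open Classical in
lemma e_apply (v w : V) : e v w = if v = w then 1 else 0 := by
  rw [e, Finsupp.single_apply]

lemma e_inj {v w : V} (h : e v = e w) : v = w := by
  classical
  have := DFunLike.congr_fun h v
  rw [e_apply, e_apply, if_pos rfl] at this
  by_contra hne
  rw [if_neg (Ne.symm hne)] at this
  omega

/-- the connection set -/
def conn (G : SimpleGraph V) : Set (V →₀ ℤ) := {s | ∃ x y, G.Adj x y ∧ s = e x - e y}

/-- uniqueness of the representation of an element of the connection set -/
lemma uniq {x y u v : V} (hxy : x ≠ y) (h : e x - e y = e u - e v) : x = u ∧ y = v := by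
  classical
  have h1 := DFunLike.congr_fun h x
  simp only [Finsupp.sub_apply, e_apply] at h1
  have hu : x = u := by
    by_contra hne
    rw [if_pos trivial, if_neg (Ne.symm hxy), if_neg (Ne.symm hne)] at h1
    split_ifs at h1 <;> omega
  subst hu
  refine ⟨rfl, ?_⟩
  apply e_inj
  have := congrArg (fun t => e x - t) h
  simpa using this

/-- the six indices of a triangle -/
lemma key {x y z w u v : V} (hxy : x ≠ y) (hzw : z ≠ w) (huv : u ≠ v)
    (h : (e z - e w) - (e x - e y) = e u - e v) :
    (z = x ∧ y = u ∧ w = v) ∨ (w = y ∧ z = u ∧ x = v) := by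
  classical
  by_cases hzx : z = x
  · subst hzx
    left
    have h2 : e y - e w = e u - e v := by
      rw [← h]; abel
    have hyw : y ≠ w := by
      rintro rfl
      have : e u = e v := by
        have h3 : e u - e v = 0 := by rw [← h2]; abel
        exact sub_eq_zero.1 h3
      exact huv (e_inj this)
    obtain ⟨a, b⟩ := uniq hyw h2
    exact ⟨rfl, a, b⟩
  · right
    have h1 := DFunLike.congr_fun h z
    simp only [Finsupp.sub_apply, e_apply] at h1
    rw [if_pos trivial, if_neg (Ne.symm hzw), if_neg (Ne.symm hzx)] at h1
    have hu : z = u := by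
      by_contra hne
      rw [if_neg (Ne.symm hne)] at h1
      split_ifs at h1 <;> omega
    subst hu
    have h2 : e v - e x = e w - e y := by
      have h4 : e v - e x - (e w - e y) = 0 := by
        have h5 : e z - e w - (e x - e y) - (e z - e v) = 0 := by rw [h]; abel
        rw [← h5]; abel
      exact sub_eq_zero.1 h4
    have hvx : v = x ∨ v ≠ x := em _
    rcases hvx with hvx | hvx
    · subst hvx
      refine ⟨?_, rfl, rfl⟩
      have h3 : e w - e y = 0 := by rw [← h2]; abel
      exact e_inj (sub_eq_zero.1 h3)
    · obtain ⟨a, b⟩ := uniq hvx h2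
      exact absurd b hxy
end Pool.Agent.H73EH
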