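import Pool.Agent.H73EH.Cay

/-!
# Cliques and triangle-free decompositions of the Cayley graph of a graph
-/

set_option autoImplicit false

namespace Pool.Agent.H73EH

open Cardinal

universe u

variable {V : Type u}

/-- the Cayley graph of an additive group with the connection set `S` -/
def Cay {A : Type u} [AddCommGroup A] (S : Set A) : SimpleGraph A :=
  SimpleGraph.fromRel (fun g h => h - g ∈ S)

lemma conn_neg {G : SimpleGraph V} {s : V →₀ ℤ} (h : s ∈ conn G) : -s ∈ conn G := by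
  obtain ⟨x, y, hxy, rfl⟩ := h
  exact ⟨y, x, hxy.symm, by abel⟩

lemma conn_ne_zero {G : SimpleGraph V} {s : V →₀ ℤ} (h : s ∈ conn G) : s ≠ 0 := by
  obtain ⟨x, y, hxy, rfl⟩ := h
  intro h0
  exact G.ne_of_adj hxy (e_inj (sub_eq_zero.1 h0))

lemma cay_adj {G : SimpleGraph V} {g h : V →₀ ℤ} :
    (Cay (conn G)).Adj g h ↔ h - g ∈ conn G := by
  rw [Cay, SimpleGraph.fromRel_adj]
  constructor
  · rintro ⟨_, h1 | h1⟩
    · exact h1
    · have := conn_neg h1
      rwa [neg_sub] at this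
  · intro h1
    refine ⟨?_, Or.inl h1⟩
    rintro rfl
    exact conn_ne_zero h1 (sub_self _)

lemma conn_iff {G : SimpleGraph V} {x y : V} (hxy : x ≠ y) :
    e x - e y ∈ conn G ↔ G.Adj x y := by
  constructor
  · rintro ⟨u, v, huv, h⟩
    obtain ⟨rfl, rfl⟩ := uniq hxy h
    exact huv
  · intro h
    exact ⟨x, y, h, rfl⟩

lemma neg_adj {G : SimpleGraph V} {g h : V →₀ ℤ} (hgh : (Cay (conn G)).Adj g h) :
    (Cay (conn G)).Adj (-g) (-h) := by
  rw [cay_adj] at hgh ⊢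
  have := conn_neg hgh
  have h2 : -h - -g = -(h - g) := by abel
  rwa [h2]

/-- type X -/
lemma typeX {G : SimpleGraph V} {K : Set (V →₀ ℤ)} (hK : (Cay (conn G)).IsClique K)
    {g0 g1 g2 : V →₀ ℤ} (h0 : g0 ∈ K) (h1 : g1 ∈ K) (h2 : g2 ∈ K)
    {x y w : V} (hxy : x ≠ y) (hxw : x ≠ w) (hyw : y ≠ w)
    (e1 : g1 - g0 = e x - e y) (e2 : g2 - g0 = e x - e w) :
    ∀ k ∈ K, ∃ t, k = (g0 + e x) - e t := by
  intro k hk
  by_cases k0 : k = g0
  · exact ⟨x, by rw [k0]; abel⟩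
  have hg1 : g1 = (g0 + e x) - e y := by
    rw [sub_eq_iff_eq_add'.1 e1]; abel
  have hg2 : g2 = (g0 + e x) - e w := by
    rw [sub_eq_iff_eq_add'.1 e2]; abel
  by_cases k1 : k = g1
  · exact ⟨y, by rw [k1, hg1]⟩
  by_cases k2 : k = g2
  · exact ⟨w, by rw [k2, hg2]⟩
  have a0 := cay_adj.1 (hK h0 hk (Ne.symm k0))
  have a1 := cay_adj.1 (hK h1 hk (Ne.symm k1))
  have a2 := cay_adj.1 (hK h2 hk (Ne.symm k2))
  obtain ⟨a, b, hab, ea⟩ := a0
  obtain ⟨c, d, hcd, ec⟩ := a1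
  obtain ⟨r, t, hrt, er⟩ := a2
  have hk1 : (e a - e b) - (e x - e y) = e c - e d := by
    rw [← ea, ← e1, ← ec]; abel
  have hk2 : (e a - e b) - (e x - e w) = e r - e t := by
    rw [← ea, ← e2, ← er]; abel
  rcases key hxy (G.ne_of_adj hab) (G.ne_of_adj hcd) hk1 with ⟨p1, _, _⟩ | ⟨p1, _, _⟩
  · refine ⟨b, ?_⟩
    subst p1
    rw [sub_eq_iff_eq_add'.1 ea]; abel
  · rcases key hxw (G.ne_of_adj hab) (G.ne_of_adj hrt) hk2 with ⟨q1, _, _⟩ | ⟨q1, _, _⟩
    · refine ⟨b, ?_⟩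
      subst q1
      rw [sub_eq_iff_eq_add'.1 ea]; abel
    · exact absurd (p1.symm.trans q1) hyw

/-- every clique with at least three elements is a translate of a clique of `G` or of its negative -/
theorem clique_eq {G : SimpleGraph V} {K : Set (V →₀ ℤ)} (hK : (Cay (conn G)).IsClique K)
    {g0 g1 g2 : V →₀ ℤ} (h0 : g0 ∈ K) (h1 : g1 ∈ K) (h2 : g2 ∈ K) (h01 : g0 ≠ g1) (h02 : g0 ≠ g2)
    (h12 : g1 ≠ g2) :
    ∃ (p : V →₀ ℤ) (s : ℤ), (s = 1 ∨ s = -1) ∧ ∀ k ∈ K, ∃ t, k = p + s • e t := by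
  obtain ⟨x, y, hxy, e1⟩ := cay_adj.1 (hK h0 h1 h01)
  obtain ⟨z, w, hzw, e2⟩ := cay_adj.1 (hK h0 h2 h02)
  obtain ⟨u, v, huv, e3⟩ := cay_adj.1 (hK h1 h2 h12)
  have h4 : (e z - e w) - (e x - e y) = e u - e v := by
    rw [← e1, ← e2, ← e3]; abel
  rcases key (G.ne_of_adj hxy) (G.ne_of_adj hzw) (G.ne_of_adj huv) h4 with
    ⟨rfl, rfl, rfl⟩ | ⟨rfl, rfl, rfl⟩
  · refine ⟨g0 + e z, -1, Or.inr rfl, fun k hk => ?_⟩
    obtain ⟨t, ht⟩ := typeX hK h0 h1 h2 (G.ne_of_adj hxy) (G.ne_of_adj hzw) (G.ne_of_adj huv)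
      e1 e2 k hk
    exact ⟨t, by rw [ht]; simp [sub_eq_add_neg]⟩
  · -- the negative
    have hK' : (Cay (conn G)).IsClique (Neg.neg '' K) := by
      rintro _ ⟨a, ha, rfl⟩ _ ⟨b, hb, rfl⟩ hab
      refine neg_adj (hK ha hb ?_)
      rintro rfl
      exact hab rfl
    have e1' : -g1 - -g0 = e w - e x := by
      have : -g1 - -g0 = -(g1 - g0) := by abel
      rw [this, e1]; abel
    have e2' : -g2 - -g0 = e w - e z := by
      have : -g2 - -g0 = -(g2 - g0) := by abel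
      rw [this, e2]; abel
    refine ⟨g0 - e w, 1, Or.inl rfl, fun k hk => ?_⟩
    obtain ⟨t, ht⟩ := typeX hK' ⟨g0, h0, rfl⟩ ⟨g1, h1, rfl⟩ ⟨g2, h2, rfl⟩
      (G.ne_of_adj hxy).symm (G.ne_of_adj hzw).symm (G.ne_of_adj huv).symm
      e1' e2' (-k) ⟨k, hk, rfl⟩
    refine ⟨t, ?_⟩
    rw [← neg_neg k, ht, one_smul]; abel

lemma img_inj {p : V →₀ ℤ} {s : ℤ} (hs : s = 1 ∨ s = -1) :
    Function.Injective (fun t : V => p + s • e t) := by
  intro t t' h
  have h1 : s • e t = s • e t' := add_left_cancel h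
  rcases hs with rfl | rfl
  · exact e_inj (by simpa using h1)
  · exact e_inj (by simpa using h1)

/-- the full description of the cliques with at least three elements -/
theorem clique_image {G : SimpleGraph V} {K : Set (V →₀ ℤ)} (hK : (Cay (conn G)).IsClique K)
    {g0 g1 g2 : V →₀ ℤ} (h0 : g0 ∈ K) (h1 : g1 ∈ K) (h2 : g2 ∈ K) (h01 : g0 ≠ g1) (h02 : g0 ≠ g2)
    (h12 : g1 ≠ g2) :
    ∃ (p : V →₀ ℤ) (s : ℤ) (K' : Set V), (s = 1 ∨ s = -1) ∧ G.IsClique K' ∧
      K = (fun t : V => p + s • e t) '' K' := by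
  obtain ⟨p, s, hs, hp⟩ := clique_eq hK h0 h1 h2 h01 h02 h12
  refine ⟨p, s, (fun t : V => p + s • e t) ⁻¹' K, hs, ?_, ?_⟩
  · intro t ht t' ht' htt
    have hne : p + s • e t ≠ p + s • e t' := fun h => htt (img_inj hs h)
    have := cay_adj.1 (hK ht ht' hne)
    rcases hs with rfl | rfl
    · have h3 : (p + (1 : ℤ) • e t') - (p + (1 : ℤ) • e t) = e t' - e t := by
        rw [one_smul, one_smul]; abel
      rw [h3, conn_iff (Ne.symm htt)] at this
      exact this.symm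
    · have h3 : (p + (-1 : ℤ) • e t') - (p + (-1 : ℤ) • e t) = e t - e t' := by
        rw [neg_smul, neg_smul, one_smul, one_smul]; abel
      rw [h3, conn_iff htt] at this
      exact this
  · ext k
    constructor
    · intro hk
      obtain ⟨t, ht⟩ := hp k hk
      exact ⟨t, by rw [Set.mem_preimage, ← ht]; exact hk, ht.symm⟩
    · rintro ⟨t, ht, rfl⟩
      exact ht

/-- the embedding -/
noncomputable def emb (G : SimpleGraph V) : G ↪g Cay (conn G) where
  toFun := e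
  inj' := fun _ _ h => e_inj h
  map_rel_iff' := by
    intro x y
    change (Cay (conn G)).Adj (e x) (e y) ↔ G.Adj x y
    rw [cay_adj]
    constructor
    · intro h
      have hne : y ≠ x := by
        rintro rfl
        exact conn_ne_zero h (sub_self _)
      exact ((conn_iff hne).1 h).symm
    · intro h
      exact ⟨y, x, h.symm, rfl⟩

theorem cliqueFree_iff {G : SimpleGraph V} {n : ℕ} (hn : 3 ≤ n) :
    (Cay (conn G)).CliqueFree n ↔ G.CliqueFree n := by
  classical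
  constructor
  · exact fun h => h.comap ⟨(emb G).toCopy⟩
  · intro h K hK
    have hcard : 2 < K.card := by rw [hK.card_eq]; omega
    obtain ⟨a, ha, b, hb, c, hc, hab, hac, hbc⟩ := Finset.two_lt_card.1 hcard
    obtain ⟨p, s, K', hs, hK', hE⟩ := clique_image hK.isClique (Finset.mem_coe.2 ha)
      (Finset.mem_coe.2 hb) (Finset.mem_coe.2 hc) hab hac hbc
    have hfin : K'.Finite := by
      have : ((fun t : V => p + s • e t) '' K').Finite := by
        rw [← hE]; exact K.finite_toSet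
      exact Set.Finite.of_finite_image this (img_inj hs).injOn
    refine h hfin.toFinset ⟨by rw [hfin.coe_toFinset]; exact hK', ?_⟩
    have h1 : hfin.toFinset.image (fun t : V => p + s • e t) = K := by
      apply Finset.coe_injective
      rw [Finset.coe_image, hfin.coe_toFinset, hE]
    rw [← hK.card_eq, ← h1, Finset.card_image_of_injective _ (img_inj hs)]

/-- colour of an element of the connection set -/
noncomputable def col (G : SimpleGraph V) (c : V → V → ℕ) (s : V →₀ ℤ) : ℕ :=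
  open Classical in
  if h : ∃ q : V × V, G.Adj q.1 q.2 ∧ s = e q.1 - e q.2 then
    c (Classical.choose h).1 (Classical.choose h).2 else 0

lemma col_eq {G : SimpleGraph V} {c : V → V → ℕ} {x y : V} (h : G.Adj x y) :
    col G c (e x - e y) = c x y := by
  have hex : ∃ q : V × V, G.Adj q.1 q.2 ∧ e x - e y = e q.1 - e q.2 := ⟨(x, y), h, rfl⟩
  rw [col, dif_pos hex]
  obtain ⟨h1, h2⟩ := Classical.choose_spec hex
  obtain ⟨h3, h4⟩ := uniq (G.ne_of_adj h) h2
  rw [← h3, ← h4]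

lemma col_neg {G : SimpleGraph V} {c : V → V → ℕ} (hc : ∀ x y, c x y = c y x) (s : V →₀ ℤ) :
    col G c (-s) = col G c s := by
  by_cases hs : s ∈ conn G
  · obtain ⟨x, y, hxy, rfl⟩ := hs
    have : -(e x - e y) = e y - e x := by abel
    rw [this, col_eq hxy, col_eq hxy.symm, hc]
  · have h1 : ¬ ∃ q : V × V, G.Adj q.1 q.2 ∧ s = e q.1 - e q.2 := by
      rintro ⟨q, h⟩
      exact hs ⟨q.1, q.2, h⟩
    have h2 : ¬ ∃ q : V × V, G.Adj q.1 q.2 ∧ -s = e q.1 - e q.2 := by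
      rintro ⟨q, h3, h4⟩
      have h5 : s = e q.2 - e q.1 := by
        rw [← neg_neg s, h4]; abel
      exact hs ⟨q.2, q.1, h3.symm, h5⟩
    rw [col, col, dif_neg h1, dif_neg h2]

/-- no monochromatic relation `a + b = s` -/
lemma no_mono {G : SimpleGraph V} {c : V → V → ℕ}
    (hc2 : ∀ x y z, G.Adj x y → G.Adj y z → G.Adj x z → ¬(c x y = c y z ∧ c x y = c x z))
    {a b s : V →₀ ℤ} (ha : a ∈ conn G) (hb : b ∈ conn G) (hs : s ∈ conn G) (h : a + b = s) :
    ¬ (col G c a = col G c b ∧ col G c a = col G c s) := by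
  obtain ⟨x, y, hxy, rfl⟩ := ha
  obtain ⟨u, v, huv, rfl⟩ := hb
  obtain ⟨z, w, hzw, rfl⟩ := hs
  have h4 : (e z - e w) - (e x - e y) = e u - e v := by
    rw [← h]; abel
  rw [col_eq hxy, col_eq huv, col_eq hzw]
  rintro ⟨c1, c2⟩
  rcases key (G.ne_of_adj hxy) (G.ne_of_adj hzw) (G.ne_of_adj huv) h4 with
    ⟨rfl, rfl, rfl⟩ | ⟨rfl, rfl, rfl⟩
  · exact hc2 z y w hxy huv hzw ⟨c1, c2⟩
  · exact hc2 z x w huv hxy hzw ⟨c1.symm, c1.symm.trans c2⟩

theorem triColorable_cay {G : SimpleGraph V} :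
    TriColorable (Cay (conn G)) ↔ TriColorable G := by
  constructor
  · rintro ⟨c, h1, h2⟩
    refine ⟨fun x y => c (e x) (e y), fun x y => h1 _ _, fun x y z hxy hyz hxz => ?_⟩
    exact h2 _ _ _ ((emb G).map_rel_iff.2 hxy) ((emb G).map_rel_iff.2 hyz)
      ((emb G).map_rel_iff.2 hxz)
  · rintro ⟨c, h1, h2⟩
    refine ⟨fun g h => col G c (h - g), fun g h => ?_, fun g h k hgh hhk hgk => ?_⟩
    · change col G c (h - g) = col G c (g - h)
      rw [← neg_sub g h, col_neg h1]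
    · exact no_mono h2 (cay_adj.1 hgh) (cay_adj.1 hhk) (cay_adj.1 hgk) (by abel)

theorem schur_iff {G : SimpleGraph V} :
    TriColorable G ↔ ∃ T : ℕ → Set (V →₀ ℤ), (∀ i, ∀ a ∈ T i, -a ∈ T i) ∧
      (∀ i, ∀ a ∈ T i, ∀ b ∈ T i, a + b ∉ T i) ∧ conn G = ⋃ i, T i := by
  classical
  constructor
  · rintro ⟨c, h1, h2⟩
    refine ⟨fun i => {s | s ∈ conn G ∧ col G c s = i}, ?_, ?_, ?_⟩
    · rintro i a ⟨ha, rfl⟩
      exact ⟨conn_neg ha, col_neg h1 a⟩
    · rintro i a ⟨ha, ha'⟩ b ⟨hb, hb'⟩ ⟨hab, hab'⟩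
      exact no_mono h2 ha hb hab rfl ⟨ha'.trans hb'.symm, ha'.trans hab'.symm⟩
    · ext s
      simp
  · rintro ⟨T, h1, h2, h3⟩
    let c : V → V → ℕ := fun x y =>
      if h : ∃ i, e x - e y ∈ T i then Nat.find h else 0
    have hsub : ∀ x y : V, -(e x - e y) = e y - e x := fun x y => by abel
    have h4 : ∀ x y i, e x - e y ∈ T i ↔ e y - e x ∈ T i := by
      intro x y i
      constructor
      · intro h; have := h1 i _ h; rwa [hsub] at this
      · intro h; have := h1 i _ h; rwa [hsub] at this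
    have hc : ∀ x y, G.Adj x y → e x - e y ∈ T (c x y) := by
      intro x y hxy
      have h5 : ∃ i, e x - e y ∈ T i := by
        have : e x - e y ∈ conn G := ⟨x, y, hxy, rfl⟩
        rw [h3] at this
        simpa using this
      have h6 : c x y = Nat.find h5 := by simp only [c]; rw [dif_pos h5]
      rw [h6]
      exact Nat.find_spec h5
    refine ⟨c, ?_, ?_⟩
    · intro x y
      simp only [c, h4 x y]
    · rintro x y z hxy hyz hxz ⟨e1, e2⟩
      have a1 := hc x y hxy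
      have a2 := hc y z hyz
      have a3 := hc x z hxz
      rw [← e1] at a2
      rw [← e2] at a3
      refine h2 _ _ a1 _ a2 ?_
      have : (e x - e y) + (e y - e z) = e x - e z := by abel
      rwa [this]

end Pool.Agent.H73EH
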