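import Pool.Agent.H73EH.Clique

/-!
# Partitions into continuum many parts, and the cofinality of the least size of an example
-/

set_option autoImplicit false

namespace Pool.Agent.H73EH

open Cardinal

universe u

variable {V : Type u}

/-- every set of size at most continuum has a symmetric colouring of its pairs with countably many
colours without a triangle in one colour -/
theorem continuum_coloring {I : Type u} (hI : #I ≤ Cardinal.continuum.{u}) :
    ∃ c : I → I → ℕ, (∀ x y, c x y = c y x) ∧
      ∀ x y z, x ≠ y → y ≠ z → x ≠ z → ¬(c x y = c y z ∧ c x y = c x z) := by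
  classical
  have h1 : #I ≤ #(ULift.{u} (ℕ → Bool)) := by
    refine hI.trans (le_of_eq ?_)
    simp
  obtain ⟨g⟩ : Nonempty (I ↪ ULift.{u} (ℕ → Bool)) := h1
  let f : I → ℕ → Bool := fun x => (g x).down
  have hf : ∀ x y, x ≠ y → ∃ n, f x n ≠ f y n := by
    intro x y hxy
    by_contra hcon
    push Not at hcon
    apply hxy
    apply g.injective
    apply ULift.ext
    funext n
    exact hcon n
  let c : I → I → ℕ := fun x y => if h : ∃ n, f x n ≠ f y n then Nat.find h else 0
  have hc : ∀ x y, x ≠ y → f x (c x y) ≠ f y (c x y) := by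
    intro x y hxy
    have h := hf x y hxy
    have h2 : c x y = Nat.find h := by simp only [c]; rw [dif_pos h]
    rw [h2]
    exact Nat.find_spec h
  refine ⟨c, ?_, ?_⟩
  · intro x y
    simp only [c, ne_comm]
  · rintro x y z hxy hyz hxz ⟨h1, h2⟩
    have a1 := hc x y hxy
    have a2 := hc y z hyz
    have a3 := hc x z hxz
    rw [← h1] at a2
    rw [← h2] at a3
    revert a1 a2 a3
    cases f x (c x y) <;> cases f y (c x y) <;> cases f z (c x y) <;> simp

/-- `f` maps the edges of `G` between different fibres to edges of `H`; if `H` and all fibres are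
countable unions of triangle-free graphs, so is `G` -/
theorem fibres {G : SimpleGraph V} {I : Type u} {H : SimpleGraph I} (hH : TriColorable H)
    (f : V → I) (hf : ∀ x y, G.Adj x y → f x = f y ∨ H.Adj (f x) (f y))
    (h : ∀ i, TriColorable (G.induce {v | f v = i})) : TriColorable G := by
  classical
  obtain ⟨d, hd1, hd2⟩ := hH
  have hC : ∀ i, ∃ C : V → V → ℕ, (∀ x y, C x y = C y x) ∧
      ∀ x y z, f x = i → f y = i → f z = i → G.Adj x y → G.Adj y z → G.Adj x z →
        ¬(C x y = C y z ∧ C x y = C x z) := by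
    intro i
    obtain ⟨c, hc1, hc2⟩ := h i
    refine ⟨fun x y => if hx : f x = i then (if hy : f y = i then c ⟨x, hx⟩ ⟨y, hy⟩ else 0) else 0,
      ?_, ?_⟩
    · intro x y
      by_cases hx : f x = i <;> by_cases hy : f y = i <;> simp [hx, hy, hc1 ⟨x, _⟩ ⟨y, _⟩]
    · intro x y z hx hy hz hxy hyz hxz
      simp only [hx, hy, hz, dif_pos]
      exact hc2 ⟨x, hx⟩ ⟨y, hy⟩ ⟨z, hz⟩ hxy hyz hxz
  choose C hC1 hC2 using hC
  refine ⟨fun x y => if f x = f y then 2 * C (f x) x y else 2 * d (f x) (f y) + 1, ?_, ?_⟩
  · intro x y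
    by_cases hxy : f x = f y
    · simp only [hxy, if_true, hC1 (f y) x y]
    · simp only [if_neg hxy, if_neg (Ne.symm hxy), hd1 (f x) (f y)]
  · intro x y z axy ayz axz
    by_cases hxy : f x = f y
    · by_cases hyz : f y = f z
      · have hxz : f x = f z := hxy.trans hyz
        rintro ⟨h1, h2⟩
        simp only [if_pos hxy, if_pos hyz, if_pos hxz] at h1 h2
        rw [hyz] at h1
        rw [hxz] at h1 h2
        exact hC2 (f z) x y z hxz hyz rfl axy ayz axz ⟨by omega, by omega⟩
      · rintro ⟨h1, -⟩
        simp only [if_pos hxy, if_neg hyz] at h1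
        omega
    · rintro ⟨h1, h2⟩
      simp only [if_neg hxy] at h1 h2
      by_cases hyz : f y = f z
      · simp only [if_pos hyz] at h1
        omega
      · by_cases hxz : f x = f z
        · simp only [if_pos hxz] at h2
          omega
        · simp only [if_neg hyz] at h1
          simp only [if_neg hxz] at h2
          exact hd2 _ _ _ ((hf x y axy).resolve_left hxy) ((hf y z ayz).resolve_left hyz)
            ((hf x z axz).resolve_left hxz) ⟨by omega, by omega⟩

/-- the complete graph on at most continuum many vertices -/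
theorem triColorable_top {I : Type u} (hI : #I ≤ Cardinal.continuum.{u}) :
    TriColorable (⊤ : SimpleGraph I) := by
  obtain ⟨c, hc1, hc2⟩ := continuum_coloring hI
  exact ⟨c, hc1, fun x y z hxy hyz hxz => hc2 x y z hxy.ne hyz.ne hxz.ne⟩

/-- at most continuum many parts -/
theorem partition {G : SimpleGraph V} {I : Type u} (hI : #I ≤ Cardinal.continuum.{u}) (f : V → I)
    (h : ∀ i, TriColorable (G.induce {v | f v = i})) : TriColorable G :=
  fibres (triColorable_top hI) f (fun x y _ => (em (f x = f y)).imp id (fun h => h)) h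

/-- cofinality -/
theorem cof_of_minimal {G : SimpleGraph V} (hG : ¬ TriColorable G)
    (hmin : ∀ S : Set V, #S < #V → TriColorable (G.induce S)) :
    Cardinal.continuum.{u} < (#V).ord.cof := by
  classical
  by_contra hcon
  push Not at hcon
  -- a bijection of `V` with an initial ordinal
  obtain ⟨φ⟩ : Nonempty (V ≃ (#V).ord.ToType) := by
    rw [← Cardinal.eq, Cardinal.mk_toType, Cardinal.card_ord]
  obtain ⟨s, hs, hs'⟩ := Order.exists_cof_eq (#V).ord.ToType
  have hcard : #s ≤ Cardinal.continuum.{u} := by
    rw [hs', ← Ordinal.cof_type, Ordinal.type_toType]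
    exact hcon
  have hinf : ℵ₀ ≤ #V := by
    by_contra hlt
    push Not at hlt
    obtain ⟨c, hc1, hc2⟩ := continuum_coloring (hlt.le.trans Cardinal.aleph0_le_continuum)
    exact hG ⟨c, hc1, fun x y z hxy hyz hxz =>
      hc2 x y z (G.ne_of_adj hxy) (G.ne_of_adj hyz) (G.ne_of_adj hxz)⟩
  have hex : ∀ v : V, ∃ t : s, φ v ≤ t.1 := by
    intro v
    obtain ⟨t, ht, ht'⟩ := hs (φ v)
    exact ⟨⟨t, ht⟩, ht'⟩
  choose f hf using hex
  refine hG (partition hcard f fun i => hmin _ ?_)
  have h1 : #{v | f v = i} ≤ #(Set.Iic i.1) := by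
    refine Cardinal.mk_le_of_injective (f := fun v : {v | f v = i} =>
      (⟨φ v.1, by
        have h2 := hf v.1
        have h3 : f v.1 = i := v.2
        rw [h3] at h2
        exact h2⟩ : Set.Iic i.1)) ?_
    intro a b hab
    apply Subtype.ext
    apply φ.injective
    exact congrArg Subtype.val hab
  refine h1.trans_lt ?_
  have h2 : (Set.Iic i.1 : Set (#V).ord.ToType) = insert i.1 (Set.Iio i.1) := by
    rw [Set.insert_eq, Set.union_comm, ← Set.Iio_union_right]
  rw [h2]
  have h3 : #(Set.Iio i.1 : Set (#V).ord.ToType) < #V := Cardinal.mk_Iio_toType_ord_lt i.1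
  refine Cardinal.mk_insert_le.trans_lt ?_
  exact Cardinal.add_lt_of_lt hinf h3 (Cardinal.one_lt_aleph0.trans_le hinf)

end Pool.Agent.H73EH
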